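import Pool.Agent.Helper89.VE.Defs
import Pool.Agent.Helper82.HP.TwoSec

set_option autoImplicit false

/-!
Project VE: the polynomial section of the second projection of a Verra fourfold whose Brauer
class is trivial.
-/

namespace Pool.Agent.Helper89.VE

open MvPolynomial Pool.Agent.Helper29.HP Pool.Agent.Helper16

theorem adj_diag {R : Type*} [CommRing R] (M : Matrix (Fin 3) (Fin 3) R) (j : Fin 3) :
    ∃ k l : Fin 3, M.adjugate j j = M k k * M l l - M k l * M l k := by
  rw [Matrix.adjugate_fin_three]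
  fin_cases j
  · exact ⟨1, 2, rfl⟩
  · exact ⟨0, 2, rfl⟩
  · exact ⟨0, 1, rfl⟩

theorem NU_adj_hom (a : Cof) (j : Fin 3) : ((NU a).adjugate j j).IsHomogeneous 4 := by
  obtain ⟨k, l, h⟩ := adj_diag (NU a) j
  rw [h]
  exact ((NU_hom a k k).mul (NU_hom a l l)).sub ((NU_hom a k l).mul (NU_hom a l k))

theorem NU_det_hom (a : Cof) : (NU a).det.IsHomogeneous 6 := by
  have h : ∀ i j k l m n : Fin 3, (NU a i j * NU a k l * NU a m n).IsHomogeneous 6 :=
    fun i j k l m n => ((NU_hom a i j).mul (NU_hom a k l)).mul (NU_hom a m n)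
  rw [Matrix.det_fin_three]
  exact (((((h _ _ _ _ _ _).sub (h _ _ _ _ _ _)).sub (h _ _ _ _ _ _)).add
    (h _ _ _ _ _ _)).add (h _ _ _ _ _ _)).sub (h _ _ _ _ _ _)

theorem ve_section {a : Cof} (ha : a.Symm) (hirr : Irreducible (NU a).det) (μ : P3) {n : ℕ}
    (hμ : μ.IsHomogeneous n) (hμδ : ¬ (NU a).det ∣ μ)
    (hsp : ∀ π : P3, Irreducible π → π ∣ μ →
      ∃ g h : P3, ¬ π ∣ h ∧ π ∣ g ^ 2 - (NU a).det * h ^ 2)
    (j : Fin 3) (s : P3) (hj : ¬ (NU a).det ∣ (NU a).adjugate j j)
    (hs : (NU a).det ∣ s ^ 2 - μ * (NU a).adjugate j j) :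
    ∃ (d : ℕ) (e : Fin 4 → P3), e ≠ 0 ∧
      (∀ i, (e i).IsHomogeneous (d + (![0, 0, 0, 1] : Fin 4 → ℕ) i)) ∧
      e ⬝ᵥ (VU a).mulVec e = 0 := by
  have hd := VU_det a
  obtain ⟨y, hy, hy0⟩ := Pool.Agent.Helper82.HP.iso_of_two_sections (N := VU a) (VU_symm ha)
    (by rw [hd]; exact NU_det_hom a) (by rw [hd]; exact hirr) j.castSucc (e := 4)
    (by rw [VU_adj]; exact NU_adj_hom a j) (by rw [hd, VU_adj]; exact hj) hμ
    (by rw [hd]; exact hμδ) (by rw [hd]; exact hsp) (s := s) (G := 1) (G1 := (NU a).det) (G2 := 0)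
    (isHomogeneous_one _ _) (by norm_num) (by rw [hd]; ring)
    (by rw [hd, VU_adj, mul_one]; exact hs)
  obtain ⟨D, m, q, p, hq0, hq, hp, hpy⟩ := Pool.Agent.Helper82.HP.lift_family_frac (L := KK) y
    (![0, 0, 0, 1] : Fin 4 → ℕ)
  have hqK : psiK q ≠ 0 := by
    change algebraMap AA KK (psi q) ≠ 0
    rw [Ne, map_eq_zero_iff _ (IsFractionRing.injective AA KK)]
    exact psi_ne_zero hq hq0
  have hpy' : (fun i => psiK (p i)) = psiK q • y := by
    funext i
    exact hpy i
  refine ⟨D, p, ?_, hp, ?_⟩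
  · rintro rfl
    apply hy
    funext i
    have h1 := congrFun hpy' i
    simp only [Pi.zero_apply, map_zero, Pi.smul_apply, smul_eq_mul] at h1
    exact (mul_eq_zero.mp h1.symm).resolve_left hqK
  · have hhom : (p ⬝ᵥ (VU a).mulVec p).IsHomogeneous (2 * D + 2) := by
      rw [VU, bord_form]
      apply IsHomogeneous.add
      · simp only [dotProduct, Matrix.mulVec]
        apply IsHomogeneous.sum
        intro i _
        have hpi : ∀ i : Fin 3, (p i.castSucc).IsHomogeneous D := by
          intro i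
          have := hp i.castSucc
          fin_cases i <;> exact this
        have h1 : (∑ k, NU a i k * p k.castSucc).IsHomogeneous (2 + D) := by
          apply IsHomogeneous.sum
          intro k _
          exact (NU_hom a i k).mul (hpi k)
        have h2 := (hpi i).mul h1
        rw [show D + (2 + D) = 2 * D + 2 by ring] at h2
        exact h2
      · have h1 : (p 3).IsHomogeneous (D + 1) := hp 3
        have h2 := h1.mul h1
        rw [show D + 1 + (D + 1) = 2 * D + 2 by ring] at h2
        exact h2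
    by_contra hne
    refine psi_ne_zero hhom hne ?_
    have hinj := IsFractionRing.injective AA KK
    apply hinj
    rw [map_zero]
    have h1 : psiK (p ⬝ᵥ (VU a).mulVec p) = 0 := by
      have h2 := Pool.Agent.Helper82.HP.map_dot (psiK : P3 →+* KK) (VU a) p p
      have h3 : (fun i => (psiK : P3 →+* KK) (p i)) = psiK q • y := hpy'
      rw [h3] at h2
      have h4 : (VU a).map (psiK : P3 →+* KK) = (VU a).map psiK := rfl
      rw [h4, Matrix.mulVec_smul, smul_dotProduct, dotProduct_smul, hy0, smul_zero, smul_zero] at h2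
      exact h2
    exact h1

end Pool.Agent.Helper89.VE
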