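import Pool.Agent.Helper89.VE.Defs
import Pool.Agent.Helper82.HP.TwoSec
import Pool.Agent.Helper82.VE.Section
import Pool.Agent.Helper64.HA.P44
import Pool.Agent.Helper29.HP.Main

set_option autoImplicit false

/-!
Project VE: similarity of the two quadric surface bundles, in homogeneous coordinates.
-/

namespace Pool.Agent.Helper89.VE

open MvPolynomial Pool.Agent.Helper29.HP Pool.Agent.Helper16

theorem MX_adj_hom (a : Cof) (j : Fin 3) : ((MX a).adjugate j j).IsHomogeneous 4 := by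
  obtain ⟨k, l, h⟩ := adj_diag (MX a) j
  rw [h]
  exact ((MX_hom a k k).mul (MX_hom a l l)).sub ((MX_hom a k l).mul (MX_hom a l k))

theorem ve_sim {c : Cub (I6 → ℂ)} (hirr : Irreducible c.disc) {a : Cof} (ha : a.Symm)
    (hdet : (MX a).det = c.disc) (μ : P3) {n : ℕ} (hμ : μ.IsHomogeneous n) (hμδ : ¬ c.disc ∣ μ)
    (hsp : ∀ π : P3, Irreducible π → π ∣ μ → ∃ g h : P3, ¬ π ∣ h ∧ π ∣ g ^ 2 - c.disc * h ^ 2)
    (i : Fin 4) (j : Fin 3) (s : P3)
    (hi : ¬ c.disc ∣ (c.Nm (X : Fin 3 → P3)).adjugate i i)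
    (hj : ¬ c.disc ∣ (MX a).adjugate j j)
    (hs : c.disc ∣ s ^ 2 - μ * (c.Nm (X : Fin 3 → P3)).adjugate i i * (MX a).adjugate j j) :
    (∃ y : Fin 4 → KK, y ≠ 0 ∧ y ⬝ᵥ ((c.Nm (X : Fin 3 → P3)).map psiK).mulVec y = 0) ∨
    ∃ (Ψ : Matrix (Fin 4) (Fin 4) KK) (ν : KK), ν ≠ 0 ∧ Ψ.det ≠ 0 ∧
      Ψ.transpose * (c.Nm (X : Fin 3 → P3)).map psiK * Ψ = ν • (VX a).map psiK := by
  have hδh : c.disc.IsHomogeneous 6 := c.disc_hom
  have hdN : (c.Nm (X : Fin 3 → P3)).det = c.disc := rfl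
  have hdV : (VX a).det = c.disc := by rw [VX_det, hdet]
  obtain ⟨N, hNdef⟩ : ∃ N : Matrix (Fin 4) (Fin 4) P3, N = c.Nm (X : Fin 3 → P3) := ⟨_, rfl⟩
  obtain ⟨e, he, hih⟩ := c.adj_hom i i
  have hN : N.IsSymm := by rw [hNdef]; exact c.Nm_symm _
  rw [← hNdef] at hi hs hdN hih ⊢
  have hμ0 : μ ≠ 0 := by
    rintro rfl
    exact hμδ (dvd_zero _)
  have hpr : Prime (psi c.disc) := psi_prime_of_deg hirr hδh (by norm_num)
  have hnd : ∀ {q : P3} {d : ℕ}, q.IsHomogeneous d → ¬ c.disc ∣ q → ¬ psi c.disc ∣ psi q :=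
    fun hq h h' => h (dvd_of_psi_dvd hirr hδh hq hpr h')
  have hadj : ∀ (M : Matrix (Fin 4) (Fin 4) P3) (k : Fin 4),
      (M.map psi).adjugate k k = psi (M.adjugate k k) :=
    fun M k => Pool.Agent.Helper82.HP.ph_adjugate M k k
  have hpd : ∀ M : Matrix (Fin 4) (Fin 4) P3, (M.map psi).det = psi M.det := by
    intro M
    have h1 := AlgHom.map_det psi M
    rw [AlgHom.mapMatrix_apply] at h1
    exact h1.symm
  have hVj : (VX a).adjugate j.castSucc j.castSucc = (MX a).adjugate j j := VX_adj a j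
  rcases Pool.Agent.Helper64.HA.p44 (N.map psi) ((VX a).map psi)
    (by rw [Matrix.IsSymm, ← Matrix.transpose_map, hN.eq])
    (by rw [Matrix.IsSymm, ← Matrix.transpose_map, (VX_symm ha).eq]) (psi c.disc) (psi μ) (psi s)
    hpr (by rw [hpd, hdN]) (by rw [hpd, hdV]) (psi_ne_zero hμ hμ0) (hnd hμ hμδ)
    (psi_sq hμ hμ0 hδh hsp) i j.castSucc (by rw [hadj]; exact hnd hih hi)
    (by rw [hadj, hVj]; exact hnd (MX_adj_hom a j) hj)
    (by
      rw [hadj, hadj, hVj]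
      have h2 := map_dvd psi hs
      rw [map_sub, map_pow, map_mul, map_mul] at h2
      exact h2) with ⟨y, hy, hy0⟩ | ⟨Ψ, ν, h1, h2, h3⟩
  · left
    exact ⟨y, hy, by rw [← Pool.Agent.Helper82.HP.map_map_psi]; exact hy0⟩
  · right
    refine ⟨Ψ, ν, h2, h1, ?_⟩
    rw [← Pool.Agent.Helper82.HP.map_map_psi, ← Pool.Agent.Helper82.HP.map_map_psi]
    exact h3

end Pool.Agent.Helper89.VE
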